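import Mathlib
import Pool.Agent.H29.QCh

set_option autoImplicit false

namespace Pool.Agent.Results.MP_587f0f_co.NotLeray

open Pool.Agent.H29.QCh

/-- the comatching number is at most two -/
def ComatchTwo {X : Type} (F : Set (Set X)) : Prop :=
  ∀ M ⊆ F, (∀ f ∈ M, ∃ a, a ∉ f ∧ ∀ g ∈ M, g ≠ f → a ∈ g) → M.encard ≤ 2

/-- ordered simplices with `k` entries of the subcomplex of the nerve induced on `W` -/
def Simp {X : Type} (W : Set (Set X)) (k : ℕ) : Set (List (Set X)) :=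
  {l | l.length = k ∧ (∀ f ∈ l, f ∈ W) ∧ ∃ a, ∀ f ∈ l, a ∈ f}

/-- the nerve of `F` is `n`-Leray -/
def Leray {X : Type} (n : ℕ) (F : Set (Set X)) : Prop :=
  ∀ W ⊆ F, ∀ i, n ≤ i → ∀ z ∈ On (Simp W (i + 1)), d z = 0 → ∃ c ∈ On (Simp W (i + 2)), d c = z

def Free {V : Type} (S : Set (Set V)) : Prop :=
  ∀ a b c, ∀ A ∈ S, ∀ B ∈ S, ∀ C ∈ S, a ∉ A → b ∈ A → c ∈ A → a ∈ B → b ∉ B → c ∈ B →
    a ∈ C → b ∈ C → c ∈ C

def Inv (n : ℕ) : Prop :=
  ∃ (V : Type) (_ : Fintype V) (_ : Nonempty V) (r : V → V → Prop) (S : Set (Set V)) (z : Ch V)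
    (φ : Ch V →ₗ[ℚ] ℚ), (∀ x, r x x) ∧ (∀ x y, r x y → r y x → x = y) ∧ Free S ∧
    z ∈ On {l | l.length = n ∧ (∃ b, ∀ x ∈ l, r b x) ∧ ∃ σ ∈ S, ∀ x ∈ l, ∀ y, r y x → y ∈ σ} ∧
    d z = 0 ∧ (∀ σ ∈ S, ∀ l, (∀ x ∈ l, x ∈ σ) → φ (dl l) = 0) ∧ φ z ≠ 0

theorem base : Inv 0 := by
  refine ⟨Unit, inferInstance, inferInstance, Eq, {∅}, sg [], ext 1, by simp, by simp,
    by simp [Free], sg_on (by simp), by simp, ?_, by simp⟩
  rintro _ rfl (_ | ⟨a, l⟩) h
  · simp
  · exact (h a (by simp)).elim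

theorem step {n : ℕ} : Inv n → Inv (n + 1) := by
  classical
  rintro ⟨V, _, _, r, S, z, φ, r1, r2, fr, hz, dz, co, nz⟩
  let cell : (V → Bool) → V → V → Option Bool := fun e x v => if r v x then none else some (e v)
  let sn : (V → Bool) → ℚ := fun e => ∏ v, if e v then -1 else 1
  let Z : Ch V →ₗ[ℚ] Ch (V → Option Bool) := ∑ e, sn e • (cons (some ∘ e) ∘ₗ mp (cell e))
  let o : V → Option Bool := fun _ => some false
  let p : Ch (V → Option Bool) →ₗ[ℚ] Ch (V → Option Bool) :=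
    ext fun l => if o ∈ l then 0 else sg l
  have hm : ∀ c : V → Option Bool, ∃ x, c ≠ o → c x ≠ some false ∧
      ∀ x', (∀ v, c v ≠ some false ↔ r v x') → x = x' := fun c => by
    by_cases h : ∃ x, ∀ v, c v ≠ some false ↔ r v x
    · obtain ⟨x, hx⟩ := h
      exact ⟨x, fun _ => ⟨(hx x).mpr (r1 x), fun x' h =>
        r2 _ _ ((h x).mp ((hx x).mpr (r1 x))) ((hx x').mp ((h x').mpr (r1 x')))⟩⟩
    · by_cases k : c = o
      · simp [k]
      · obtain ⟨x, hx⟩ := Function.ne_iff.mp k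
        exact ⟨x, fun _ => ⟨hx, fun x' h' => (h ⟨x', h'⟩).elim⟩⟩
  choose m hm using hm
  have sub : ∀ {P : (V → Option Bool) → Prop} {l : List (V → Option Bool)}, (∀ x ∈ l, P x) →
      dl l ∈ On {l | ∀ x ∈ l, P x} := fun h =>
    dl_on fun i _ x hx => h x (List.mem_of_mem_eraseIdx hx)
  have out : ∀ l, o ∉ l → (p ∘ₗ d - d ∘ₗ p) (sg l) = 0 := fun l h => by
    have := lin_eq_on p .id (fun l k => by simp [p, show o ∉ l from fun a => k o a rfl])
      (sub (P := (· ≠ o)) (l := l) fun x hx e => h (e ▸ hx))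
    simp [p, h] at this ⊢
    simp [this]
  refine ⟨V → Option Bool, inferInstance, inferInstance, fun c c' => ∀ v, c v = c' v ∨ c' v = none,
    {A | ∃ σ ∈ S, ∃ e : V → Bool, A = {c | ∀ v, v ∉ σ → c v = some (e v)}}, Z z,
    φ ∘ₗ mp m ∘ₗ (p ∘ₗ d - d ∘ₗ p), by simp, fun x y h k => funext fun v => by grind, ?_,
    lin_on _ ?_ hz, ?_, ?_, ?_⟩
  · rintro a b c _ ⟨A, hA, e, rfl⟩ _ ⟨B, hB, f, rfl⟩ _ ⟨C, hC, g, rfl⟩ h1 h2 h3 h4 h5 h6 h7 h8 w hw
    simp only [Set.mem_ofPred_eq, not_forall] at *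
    obtain ⟨u, hu, h1⟩ := h1
    obtain ⟨v, hv, h5⟩ := h5
    by_contra h9
    exact hw (fr u v w A hA B hB C hC hu (by grind) (by grind) (by grind) hv (by grind) (by grind)
      (by grind))
  · rintro l ⟨a, -, σ, hσ, h⟩
    simp only [Z, LinearMap.sum_apply, LinearMap.smul_apply, LinearMap.comp_apply, mp_sg, cons_sg]
    refine Submodule.sum_mem _ fun e _ => Submodule.smul_mem _ _ (sg_on ⟨by simp [a],
      ⟨some ∘ e, ?_⟩, _, ⟨σ, hσ, e, rfl⟩, ?_⟩) <;>
      simp only [List.forall_mem_cons, List.forall_mem_map, cell] <;> grind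
  · have : ∑ e, sn e • mp (cell e) z = 0 := by
      have := lin_eq_on (∑ e, sn e • mp (cell e)) 0 ?_ hz
      · simpa using this
      rintro l ⟨-, ⟨b, hb⟩, -⟩
      simp only [LinearMap.sum_apply, LinearMap.smul_apply, mp_sg, LinearMap.zero_apply]
      refine Finset.sum_involution (fun e _ => Function.update e b (!e b)) (fun e _ => ?_)
        (fun e _ _ h => by simpa using congrFun h b) (by simp) (by simp)
      rw [List.map_congr_left (f := cell (Function.update e b _)) (g := cell e)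
        fun x hx => funext fun v => by grind, ← add_smul]
      simp only [sn, ← Finset.mul_prod_erase _ _ (Finset.mem_univ b)]
      rw [Finset.prod_congr rfl (f := fun v => if Function.update e b _ v then _ else _) fun v hv =>
        by rw [Function.update_of_ne (Finset.ne_of_mem_erase hv)]]
      cases e b <;> simp
    simpa [Z, d_cons, d_mp, dz] using this
  · rintro _ ⟨σ, hσ, e, rfl⟩ l hl
    have k : (p ∘ₗ d - d ∘ₗ p) (sg l) ∈ On {l | ∀ c ∈ l, m c ∈ σ} := by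
      by_cases h : o ∈ l
      · simp only [LinearMap.sub_apply, LinearMap.comp_apply, p, ext_sg, if_pos h, map_zero,
          sub_zero, d_sg]
        refine lin_on _ (fun l' k => ?_) (sub hl)
        rw [ext_sg]
        split_ifs with k'
        · exact zero_mem _
        refine sg_on fun c hc => by_contra fun q => (hm c fun e => k' (e ▸ hc)).1 ?_
        exact (k c hc _ q).trans (hl o h _ q).symm
      · rw [out l h]
        exact zero_mem _
    have := lin_eq_on (φ ∘ₗ d ∘ₗ mp m) 0 (fun l h => by simpa using co σ hσ _ (by simpa using h)) k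
    simpa [d_d, d_dl, d_mp] using this
  · refine fun h => nz ((lin_eq_on φ ((φ ∘ₗ mp m ∘ₗ (p ∘ₗ d - d ∘ₗ p)) ∘ₗ Z) ?_ hz).trans h)
    rintro l ⟨-, ⟨b, hb⟩, -⟩
    have k : ∀ e, o ∉ l.map (cell e) := fun e h => by
      obtain ⟨x, hx, h⟩ := List.mem_map.mp h
      simpa [cell, o, hb x hx] using congrFun h b
    simp only [Z, LinearMap.sum_apply, LinearMap.smul_apply, LinearMap.comp_apply, mp_sg, cons_sg,
      map_sum, map_smul]
    rw [Finset.sum_eq_single (fun _ => false) (fun e _ he => ?_) (by simp)]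
    · have q : ∀ c, p (cons o c) = 0 := hom_ext (F := p ∘ₗ cons o) (G := 0) fun l => by simp [p]
      have q' : l.map (m ∘ cell fun _ => false) = l := by
        refine (List.map_congr_left fun x hx => (hm _ fun e => ?_).2 x (by simp [cell])).trans
          (List.map_id l)
        simpa [cell, o, hb x hx] using congrFun e b
      change _ = _ • φ (mp m (p (d (sg (o :: _))) - d (p (sg (o :: _)))))
      simp [dl_cons, q, p, k, q', sn]
    · rw [out, map_zero, map_zero, smul_zero]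
      simp only [List.mem_cons, k, or_false]
      exact fun h => he (funext fun v => by simpa [o] using congrFun h v)

theorem result (n : ℕ) : ∃ (X : Type) (F : Set (Set X)), ComatchTwo F ∧ ¬Leray n F := by
  classical
  obtain ⟨V, _, _, r, S, z, φ, r1, -, fr, hz, dz, co, nz⟩ : Inv (n + 1) := by
    induction n + 1 with
    | zero => exact base
    | succ k ih => exact step ih
  let f : V → Set (S ⊕ V) := fun v => {a | Sum.elim (fun σ => v ∈ σ.1) (· = v) a}
  have hf : f.Injective := fun u v h => h.subset (show Sum.inr u ∈ f u from rfl)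
  refine ⟨S ⊕ V, Set.range f, fun M hM h => ?_, fun h => ?_⟩
  · by_contra k
    obtain ⟨t, ht, k⟩ := Set.exists_subset_encard_eq (Order.add_one_le_of_lt (not_le.mp k))
    obtain ⟨a', b', c', ab, ac, bc, rfl⟩ := Set.encard_eq_three.mp k
    simp only [Set.insert_subset_iff, Set.singleton_subset_iff] at ht
    obtain ⟨a, rfl⟩ := hM ht.1
    obtain ⟨b, rfl⟩ := hM ht.2.1
    obtain ⟨c, rfl⟩ := hM ht.2.2
    obtain ⟨A | A, h1, h2⟩ := h _ ht.1
    swap
    · exact bc (congrArg f ((h2 _ ht.2.1 ab.symm).symm.trans (h2 _ ht.2.2 ac.symm)))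
    obtain ⟨B | B, h3, h4⟩ := h _ ht.2.1
    swap
    · exact ac (congrArg f ((h4 _ ht.1 ab).symm.trans (h4 _ ht.2.2 bc.symm)))
    obtain ⟨C | C, h5, h6⟩ := h _ ht.2.2
    swap
    · exact ab (congrArg f ((h6 _ ht.1 ac).symm.trans (h6 _ ht.2.1 bc)))
    exact h5 (fr a b c A A.2 B B.2 C C.2 h1 (h2 _ ht.2.1 ab.symm) (h2 _ ht.2.2 ac.symm)
      (h4 _ ht.1 ab) h3 (h4 _ ht.2.2 bc.symm) (h6 _ ht.1 ac) (h6 _ ht.2.1 bc))
  obtain ⟨c, hc, e⟩ := h (f '' ⋃₀ S) (Set.image_subset_range ..) n le_rfl (mp f z)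
    (mp_on f (by
      rintro l ⟨a, -, σ, hσ, h⟩
      refine ⟨by simpa, ?_, .inl ⟨σ, hσ⟩, ?_⟩ <;> simp only [List.forall_mem_map]
      exacts [fun x hx => ⟨x, ⟨σ, hσ, h x hx x (r1 x)⟩, rfl⟩, fun x hx => h x hx x (r1 x)]) hz)
    (by rw [d_mp, dz, map_zero])
  have := lin_eq_on (φ ∘ₗ d ∘ₗ mp (Function.invFun f)) 0 ?_ hc
  · simp [d_mp, e, mp_mp, Function.invFun_comp hf, mp_id, nz] at this
  rintro l ⟨h0, h1, a, h2⟩
  have : ∃ σ ∈ S, ∀ x ∈ l.map (Function.invFun f), x ∈ σ := by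
    have k : ∀ g ∈ l, a ∈ f (Function.invFun f g) := fun g hg => by
      rw [Function.invFun_eq ((h1 g hg).imp fun _ h => h.2)]
      exact h2 g hg
    simp only [List.forall_mem_map]
    rcases a with σ | v
    · exact ⟨σ, σ.2, k⟩
    obtain ⟨g, hg⟩ := List.exists_mem_of_length_pos (l := l) (by omega)
    obtain ⟨u, ⟨σ, hσ, h⟩, rfl⟩ := h1 g hg
    exact ⟨σ, hσ, fun x hx => (k x hx).symm.trans (h2 _ hg) ▸ h⟩
  obtain ⟨σ, hσ, h⟩ := this
  simpa using co σ hσ _ h

end Pool.Agent.Results.MP_587f0f_co.NotLeray
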